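import Pool.Agent.TH506.APD.Alg2

/-!
Multiplier groups of cyclic planar difference sets of prime order: the algebraic part.
-/

set_option autoImplicit false

namespace Pool.Agent.TH506.PMU

open Finset Pool.Agent.H152R2 Pool.Agent.TH506.APD

instance neZero_v (n : ℕ) : NeZero (n ^ 2 + n + 1) := ⟨by positivity⟩

/-- `t` is a multiplier of `D` -/
def IsMult {n : ℕ} (D : Finset (ZMod (n ^ 2 + n + 1))) (t : (ZMod (n ^ 2 + n + 1))ˣ) : Prop :=
  ∃ s : ZMod (n ^ 2 + n + 1), D.image (fun d => (t : ZMod (n ^ 2 + n + 1)) * d) = D.image (fun d => d + s)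

variable {n : ℕ} {D : Finset (ZMod (n ^ 2 + n + 1))}

/-- a normalised translate -/
lemma exists_norm (h : IsPDS n D) : ∃ s : ZMod (n ^ 2 + n + 1),
    IsPDS n (D.map (Equiv.addRight s).toEmbedding) ∧ ∑ d ∈ D.map (Equiv.addRight s).toEmbedding, d = 0 := by
  classical
  have := h.finite
  have hinj : Function.Injective (fun s : ZMod (n ^ 2 + n + 1) => (n + 1) • s) := by
    intro a b hab
    have h3 : (n + 1) • (a - b) = 0 := by rw [smul_sub]; exact sub_eq_zero.2 hab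
    exact sub_eq_zero.1 (h.smul_inj_of_coprime (IsPDS.coprime_card n) h3)
  obtain ⟨s, hs⟩ := (Finite.injective_iff_surjective.1 hinj) (- ∑ d ∈ D, d)
  refine ⟨s, ⟨h.card_group, by rw [card_map, h.card], ?_⟩, ?_⟩
  · intro g hg
    obtain ⟨q, ⟨h1, h2, h3⟩, hq⟩ := h.diff g hg
    refine ⟨(q.1 + s, q.2 + s), ⟨?_, ?_, ?_⟩, ?_⟩
    · simpa using h1
    · simpa using h2
    · simpa using h3
    · rintro ⟨a, b⟩ ⟨ha, hb, hab⟩
      simp only [mem_map, Equiv.coe_toEmbedding, Equiv.coe_addRight] at ha hb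
      obtain ⟨a', ha', rfl⟩ := ha
      obtain ⟨b', hb', rfl⟩ := hb
      have := hq (a', b') ⟨ha', hb', by rw [← hab]; simp⟩
      rw [← this]
  · rw [Finset.sum_map]
    simp only [Equiv.coe_toEmbedding, Equiv.coe_addRight]
    rw [Finset.sum_add_distrib, Finset.sum_const, h.card]
    simp only at hs
    rw [hs, add_neg_cancel]

lemma mult_fix {s0 : ZMod (n ^ 2 + n + 1)}
    (h' : IsPDS n (D.map (Equiv.addRight s0).toEmbedding))
    (h0 : ∑ d ∈ D.map (Equiv.addRight s0).toEmbedding, d = 0) {t : (ZMod (n ^ 2 + n + 1))ˣ}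
    (ht : IsMult D t) :
    ∀ x ∈ D.map (Equiv.addRight s0).toEmbedding, (t : ZMod (n ^ 2 + n + 1)) * x ∈
      D.map (Equiv.addRight s0).toEmbedding := by
  classical
  obtain ⟨s, hs⟩ := ht
  set D' := D.map (Equiv.addRight s0).toEmbedding with hD'
  obtain ⟨s', hs'⟩ : ∃ s', s' = s + (t : ZMod (n ^ 2 + n + 1)) * s0 - s0 := ⟨_, rfl⟩
  have hstep : ∀ x ∈ D', ∃ y ∈ D', (t : ZMod (n ^ 2 + n + 1)) * x = s' + y := by
    intro x hx
    rw [hD', mem_map] at hx
    obtain ⟨d, hd, rfl⟩ := hx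
    have h1 : (t : ZMod (n ^ 2 + n + 1)) * d ∈ D.image (fun d => d + s) := by
      rw [← hs]; exact mem_image.2 ⟨d, hd, rfl⟩
    obtain ⟨e, he, hed⟩ := mem_image.1 h1
    refine ⟨e + s0, ?_, ?_⟩
    · rw [hD', mem_map]; exact ⟨e, he, rfl⟩
    · simp only [Equiv.coe_toEmbedding, Equiv.coe_addRight]
      rw [mul_add, ← hed, hs']; ring
  choose! φ hφ1 hφ2 using hstep
  have hinj : Set.InjOn φ D' := by
    intro a ha b hb hab
    have h1 := hφ2 a ha
    have h2 := hφ2 b hb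
    rw [hab, ← h2] at h1
    exact t.isUnit.mul_left_cancel h1
  have hsurj : Set.SurjOn φ D' D' := Finset.surjOn_of_injOn_of_card_le φ hφ1 hinj le_rfl
  have h1 : ∑ x ∈ D', (t : ZMod (n ^ 2 + n + 1)) * x = ∑ x ∈ D', (s' + φ x) := Finset.sum_congr rfl hφ2
  have h2 : ∑ x ∈ D', φ x = ∑ x ∈ D', x := by
    apply Finset.sum_bij (fun x _ => φ x) hφ1 (fun a ha b hb hab => hinj ha hb hab)
    · intro b hb
      obtain ⟨a, ha, hab⟩ := hsurj hb
      exact ⟨a, ha, hab⟩
    · intro a _; rfl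
  rw [Finset.sum_add_distrib, h2, ← Finset.mul_sum, h0, mul_zero, add_zero, Finset.sum_const,
    h'.card] at h1
  have h3 : s' = 0 := h'.smul_inj_of_coprime (IsPDS.coprime_card n) h1.symm
  intro x hx
  rw [hφ2 x hx, h3, zero_add]
  exact hφ1 x hx

lemma natCast_val_unit (t : (ZMod (n ^ 2 + n + 1))ˣ) :
    (((t : ZMod (n ^ 2 + n + 1)).val : ℕ) : ZMod (n ^ 2 + n + 1)) = t := ZMod.natCast_zmod_val _

theorem mult_group {z : ℕ} (hn : n.Prime) (h : IsPDS n D) (hE : ¬ E1 z n)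
    (hq : ∀ q : ℕ, (q = 9 ∨ (q.Prime ∧ 5 ≤ q)) → ∃ r : ℕ, r.Prime ∧ r ∣ n ^ 2 + n + 1 ∧ z < r ∧ ¬ q ∣ r - 1)
    (t : (ZMod (n ^ 2 + n + 1))ˣ) (ht : IsMult D t) (P : (ZMod (n ^ 2 + n + 1))ˣ)
    (hP : (P : ZMod (n ^ 2 + n + 1)) = (n : ZMod (n ^ 2 + n + 1))) : ∃ i : ℕ, t = P ^ i := by
  classical
  obtain ⟨s0, h', h0⟩ := exists_norm h
  set D' := D.map (Equiv.addRight s0).toEmbedding with hD'
  have hn0 : 0 < n := hn.pos
  have hn2 : 2 ≤ n := hn.two_le
  -- natural number multipliers of `D'`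
  have hadd : ∀ (k : ℕ) (x : ZMod (n ^ 2 + n + 1)), k • x = (k : ZMod (n ^ 2 + n + 1)) * x :=
    fun k x => nsmul_eq_mul k x
  have ht' := mult_fix h' h0 ht
  have htk : ∀ i j : ℕ, ∀ x ∈ D', ((t ^ i * P ^ j : (ZMod (n ^ 2 + n + 1))ˣ) : ZMod (n ^ 2 + n + 1)) * x ∈ D' := by
    intro i
    induction i with
    | zero =>
      intro j
      induction j with
      | zero => intro x hx; simpa using hx
      | succ j ih =>
        intro x hx
        have h1 := h'.prime_smul_mem h0 hn0 hn dvd_rfl (ih x hx)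
        rw [hadd] at h1
        have h2 : ((t ^ 0 * P ^ (j + 1) : (ZMod (n ^ 2 + n + 1))ˣ) : ZMod (n ^ 2 + n + 1)) * x =
            (n : ZMod (n ^ 2 + n + 1)) * (((t ^ 0 * P ^ j : (ZMod (n ^ 2 + n + 1))ˣ) : ZMod (n ^ 2 + n + 1)) * x) := by
          push_cast
          rw [hP]; ring
        rw [h2]; exact h1
    | succ i ih =>
      intro j x hx
      have h1 := ht' _ (ih j x hx)
      have h2 : ((t ^ (i + 1) * P ^ j : (ZMod (n ^ 2 + n + 1))ˣ) : ZMod (n ^ 2 + n + 1)) * x =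
          (t : ZMod (n ^ 2 + n + 1)) * (((t ^ i * P ^ j : (ZMod (n ^ 2 + n + 1))ˣ) : ZMod (n ^ 2 + n + 1)) * x) := by
        push_cast; ring
      rw [h2]; exact h1
  -- a multiplier which is `1` modulo a large prime is `1`
  have key : ∀ (i j r : ℕ) (_ : r.Prime) (hrv : r ∣ n ^ 2 + n + 1) (_ : z < r),
      ZMod.castHom hrv (ZMod r)
        ((t ^ i * P ^ j : (ZMod (n ^ 2 + n + 1))ˣ) : ZMod (n ^ 2 + n + 1)) = 1 → t ^ i * P ^ j = 1 := by
    intro i j r hr hrv hz h1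
    set w : (ZMod (n ^ 2 + n + 1))ˣ := t ^ i * P ^ j with hw
    have h2 : ((w : ZMod (n ^ 2 + n + 1)).val : ZMod r) = 1 := by
      have h3 := congrArg (ZMod.castHom hrv (ZMod r)) (natCast_val_unit w)
      rw [map_natCast] at h3
      rw [h3]; exact h1
    have h3 := act_trivial h' hE (t := (w : ZMod (n ^ 2 + n + 1)).val)
      (fun x hx => by rw [hadd, natCast_val_unit]; exact htk i j x hx) hr hrv hz h2 1
    rw [hadd, natCast_val_unit, mul_one] at h3
    exact Units.ext h3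
  -- the order of `t`
  set o := orderOf t with ho
  have ho0 : 0 < o := orderOf_pos t
  have hord : ∀ r : ℕ, r.Prime → r ∣ n ^ 2 + n + 1 → z < r → o ∣ r - 1 := by
    intro r hr hrv hz
    have hfr : Fact r.Prime := ⟨hr⟩
    rw [ho]
    apply orderOf_dvd_of_pow_eq_one
    have h1 := key (r - 1) 0 r hr hrv hz (by
      rw [pow_zero, mul_one]
      push_cast
      rw [map_pow]
      apply ZMod.pow_card_sub_one_eq_one
      exact ((t.isUnit).map (ZMod.castHom hrv (ZMod r))).ne_zero)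
    rw [pow_zero, mul_one] at h1
    exact h1
  have hodd : ¬ 2 ∣ o := by
    rintro ⟨m, hm⟩
    have hm0 : 0 < m := by omega
    have h1 : (t ^ m) ^ 2 = 1 := by rw [← pow_mul, mul_comm, ← hm]; exact pow_orderOf_eq_one t
    have h2 : t ^ m ≠ 1 := by
      intro h3
      have := Nat.le_of_dvd hm0 (orderOf_dvd_of_pow_eq_one h3)
      omega
    have h3 := square_of_invol h' hn2 (t := ((t ^ m : (ZMod (n ^ 2 + n + 1))ˣ) : ZMod (n ^ 2 + n + 1)).val)
      (fun x hx => by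
        rw [hadd, natCast_val_unit]
        have := htk m 0 x hx
        rwa [pow_zero, mul_one] at this)
      (fun x => by
        rw [hadd, hadd, natCast_val_unit, ← mul_assoc, ← Units.val_mul, ← pow_two, h1]; simp)
      ⟨1, by
        rw [hadd, natCast_val_unit, mul_one]
        intro h4
        exact h2 (Units.ext h4)⟩
    exact hn.prime.not_isSquare h3
  have ho3 : o ∣ 3 := by
    have h9 : ¬ 9 ∣ o := by
      intro h1
      obtain ⟨r, h2, h3, h4, h5⟩ := hq 9 (Or.inl rfl)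
      exact h5 (h1.trans (hord r h2 h3 h4))
    have h5 : ∀ q : ℕ, q.Prime → q ∣ o → q = 3 := by
      intro q hqp hqo
      by_contra hne
      have h6 : q ≠ 2 := by rintro rfl; exact hodd hqo
      have h7 : q ≠ 4 := by rintro rfl; exact absurd hqp (by norm_num)
      have h8 : 5 ≤ q := by have := hqp.two_le; omega
      obtain ⟨r, h2, h3, h4, h5⟩ := hq q (Or.inr ⟨hqp, h8⟩)
      exact h5 (hqo.trans (hord r h2 h3 h4))
    have h6 : o = 3 ^ o.primeFactorsList.length := by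
      apply Nat.eq_prime_pow_of_unique_prime_dvd ho0.ne'
      intro q hqp hqo
      exact h5 q hqp hqo
    set e := o.primeFactorsList.length with he
    have h7 : e ≤ 1 := by
      by_contra hcon
      push Not at hcon
      apply h9
      rw [h6]
      exact pow_dvd_pow 3 (show 2 ≤ e from hcon)
    rw [h6]
    calc 3 ^ e ∣ 3 ^ 1 := pow_dvd_pow 3 h7
      _ = 3 := by norm_num
  -- `t ^ 3 = 1`
  have ht3 : t ^ 3 = 1 := by
    obtain ⟨m, hm⟩ := ho3
    rw [hm, pow_mul, ho, pow_orderOf_eq_one, one_pow]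
  have hP3 : P ^ 3 = 1 := by
    apply Units.ext
    push_cast
    rw [hP]
    have h1 : ((n ^ 2 + n + 1 : ℕ) : ZMod (n ^ 2 + n + 1)) = 0 := ZMod.natCast_self _
    push_cast at h1
    linear_combination ((n : ZMod (n ^ 2 + n + 1)) - 1) * h1
  obtain ⟨r, hr, hrv, hzr, _⟩ := hq 9 (Or.inl rfl)
  have hfr : Fact r.Prime := ⟨hr⟩
  by_cases ht1 : t = 1
  · exact ⟨0, by rw [ht1, pow_zero]⟩
  set a : ZMod r := ZMod.castHom hrv (ZMod r) (t : ZMod (n ^ 2 + n + 1)) with ha
  have hb : ZMod.castHom hrv (ZMod r) (P : ZMod (n ^ 2 + n + 1)) = (n : ZMod r) := by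
    rw [hP, map_natCast]
  have ha3 : a ^ 3 = 1 := by
    have h1 := congrArg (fun u : (ZMod (n ^ 2 + n + 1))ˣ => ZMod.castHom hrv (ZMod r) (u : ZMod (n ^ 2 + n + 1))) ht3
    simp only [Units.val_pow_eq_pow_val, map_pow, Units.val_one, map_one] at h1
    exact h1
  have ha1 : a ≠ 1 := by
    intro h1
    apply ht1
    have h2 := key 1 0 r hr hrv hzr (by rw [pow_zero, mul_one, pow_one]; exact h1)
    rwa [pow_zero, mul_one, pow_one] at h2
  have ha2 : a ^ 2 + a + 1 = 0 := by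
    have h1 : (a - 1) * (a ^ 2 + a + 1) = 0 := by linear_combination ha3
    exact (mul_eq_zero.1 h1).resolve_left (sub_ne_zero.2 ha1)
  have hn2' : (n : ZMod r) ^ 2 + n + 1 = 0 := by
    have h1 := (ZMod.natCast_eq_zero_iff (n ^ 2 + n + 1) r).2 hrv
    push_cast at h1
    exact h1
  have h1 : (a - n) * (a - (n : ZMod r) ^ 2) = 0 := by
    linear_combination ha2 - (a - n + 1) * hn2'
  rcases mul_eq_zero.1 h1 with h2 | h2
  · -- `a = n`
    have h3 : a = n := sub_eq_zero.1 h2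
    refine ⟨1, ?_⟩
    have h4 := key 1 2 r hr hrv hzr (by
      push_cast
      rw [map_mul, map_pow, map_pow, hb, ← ha, h3]
      linear_combination ((n : ZMod r) - 1) * hn2')
    have h5 : t * P ^ 2 = 1 := by rwa [pow_one] at h4
    rw [pow_one]
    calc t = t * P ^ 3 := by rw [hP3, mul_one]
      _ = (t * P ^ 2) * P := by rw [mul_assoc, show P ^ 2 * P = P ^ 3 from (pow_succ P 2).symm]
      _ = P := by rw [h5, one_mul]
  · have h3 : a = (n : ZMod r) ^ 2 := sub_eq_zero.1 h2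
    refine ⟨2, ?_⟩
    have h4 := key 1 1 r hr hrv hzr (by
      push_cast
      rw [map_mul, map_pow, map_pow, hb, ← ha, h3]
      linear_combination ((n : ZMod r) - 1) * hn2')
    have h5 : t * P = 1 := by rwa [pow_one, pow_one] at h4
    calc t = t * P ^ 3 := by rw [hP3, mul_one]
      _ = (t * P) * P ^ 2 := by rw [mul_assoc, show P * P ^ 2 = P ^ 3 from (pow_succ' P 2).symm]
      _ = P ^ 2 := by rw [h5, one_mul]

/-- the powers of `n` are multipliers (Hall) -/
theorem hall (hn : n.Prime) (h : IsPDS n D) (P : (ZMod (n ^ 2 + n + 1))ˣ)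
    (hP : (P : ZMod (n ^ 2 + n + 1)) = (n : ZMod (n ^ 2 + n + 1))) (i : ℕ) : IsMult D (P ^ i) := by
  classical
  obtain ⟨s0, h', h0⟩ := exists_norm h
  set D' := D.map (Equiv.addRight s0).toEmbedding with hD'
  have h1 : ∀ x ∈ D', ((P ^ i : (ZMod (n ^ 2 + n + 1))ˣ) : ZMod (n ^ 2 + n + 1)) * x ∈ D' := by
    induction i with
    | zero => intro x hx; simpa using hx
    | succ j ih =>
      intro x hx
      have h1 := h'.prime_smul_mem h0 hn.pos hn dvd_rfl (ih x hx)
      rw [nsmul_eq_mul] at h1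
      have h2 : ((P ^ (j + 1) : (ZMod (n ^ 2 + n + 1))ˣ) : ZMod (n ^ 2 + n + 1)) * x =
          (n : ZMod (n ^ 2 + n + 1)) * (((P ^ j : (ZMod (n ^ 2 + n + 1))ˣ) : ZMod (n ^ 2 + n + 1)) * x) := by
        push_cast
        rw [hP]; ring
      rw [h2]; exact h1
  obtain ⟨u, hu⟩ : ∃ u : (ZMod (n ^ 2 + n + 1))ˣ, u = P ^ i := ⟨_, rfl⟩
  rw [← hu] at h1 ⊢
  refine ⟨s0 - (u : ZMod (n ^ 2 + n + 1)) * s0, ?_⟩
  apply Finset.eq_of_subset_of_card_le
  · intro y hy
    obtain ⟨d, hd, rfl⟩ := mem_image.1 hy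
    have h2 := h1 (d + s0) (by rw [hD', mem_map]; exact ⟨d, hd, rfl⟩)
    rw [hD', mem_map] at h2
    obtain ⟨e, he, hee⟩ := h2
    simp only [Equiv.coe_toEmbedding, Equiv.coe_addRight] at hee
    refine mem_image.2 ⟨e, he, ?_⟩
    have : (u : ZMod (n ^ 2 + n + 1)) * d = (u : ZMod (n ^ 2 + n + 1)) * (d + s0) - u * s0 := by ring
    rw [this, ← hee]; ring
  · rw [card_image_of_injective _ (add_left_injective _), card_image_of_injective]
    intro a b hab
    exact u.isUnit.mul_left_cancel hab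

end Pool.Agent.TH506.PMU
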