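import Pool.Agent.TH506.PMU.Cnt
import Pool.Agent.TH506.APD.Asy

/-!
Two small lemmas.
-/

set_option autoImplicit false

namespace Pool.Agent.TH506.PMU

open Finset Polynomial Filter Topology Asymptotics Pool.Agent.TH506.APD
open Pool.Agent.H410R2.ED Pool.Agent.H474R2.PG

lemma J_large {c : ℝ} (hc : 0 < c) (K0 : ℕ) : ∃ Y0 : ℕ, ∀ Y : ℕ, Y0 ≤ Y → ∀ J : ℕ,
    1 / (2 : ℝ) ^ J ≤ c / Real.log Y → K0 ≤ J := by
  obtain ⟨Y0, h⟩ := log_large (c * 2 ^ K0)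
  refine ⟨Y0, fun Y hY J hJ => ?_⟩
  have h1 := h Y hY
  have h2 : (0 : ℝ) < c * 2 ^ K0 := by positivity
  have h3 : 0 < Real.log Y := by linarith
  rw [div_le_div_iff₀ (by positivity) h3, one_mul] at hJ
  have h4 : c * (2 : ℝ) ^ K0 ≤ c * 2 ^ J := h1.trans hJ
  have h5 : (2 : ℝ) ^ K0 ≤ 2 ^ J := le_of_mul_le_mul_left h4 hc
  exact (pow_le_pow_iff_right₀ (by norm_num)).1 h5

lemma three_dvd {l a : ℕ} (hl : l.Prime) (hl3 : 3 < l) (h : l ∣ a ^ 2 + a + 1) : 3 ∣ l - 1 := by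
  have : Fact l.Prime := ⟨hl⟩
  have h1 := (ZMod.natCast_eq_zero_iff (a ^ 2 + a + 1) l).2 h
  push_cast at h1
  have h3 : (a : ZMod l) ^ 3 = 1 := by linear_combination ((a : ZMod l) - 1) * h1
  have hne : (a : ZMod l) ≠ 1 := by
    intro h2
    rw [h2] at h1
    have h4 : ((3 : ℕ) : ZMod l) = 0 := by push_cast; linear_combination h1
    have h5 := Nat.le_of_dvd (by norm_num) ((ZMod.natCast_eq_zero_iff 3 l).1 h4)
    omega
  have h0 : (a : ZMod l) ≠ 0 := by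
    intro h2
    rw [h2] at h3
    exact zero_ne_one (α := ZMod l) (by linear_combination h3)
  have : Fact (Nat.Prime 3) := ⟨Nat.prime_three⟩
  have h4 : orderOf (a : ZMod l) = 3 := orderOf_eq_prime h3 hne
  rw [← h4]
  exact orderOf_dvd_of_pow_eq_one (ZMod.pow_card_sub_one_eq_one h0)

end Pool.Agent.TH506.PMU
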