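import Pool.Agent.TH506.PMU.Cnt
import Pool.Agent.TH506.PMU.BadJ

/-!
Few primes have all large prime factors of the order in one residue class.
-/

set_option autoImplicit false

namespace Pool.Agent.TH506.PMU

open Finset Polynomial Filter Topology Asymptotics Pool.Agent.TH506.APD
open Pool.Agent.H410R2.ED Pool.Agent.H474R2.PG

set_option maxHeartbeats 4000000 in
open Classical in
theorem set_B {ε : ℝ} (hε : 0 < ε) (z q : ℕ) (hq : q = 9 ∨ (q.Prime ∧ 5 ≤ q)) : ∃ Y0 : ℕ, ∀ X Y : ℕ,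
    Y0 ≤ Y → 1 ≤ X → ∀ A : Finset ℕ,
    (∀ n ∈ A, n ≤ X ∧ n.Prime ∧ Y < n ∧ ∀ r : ℕ, r.Prime → r ∣ n ^ 2 + n + 1 → z < r → q ∣ r - 1) →
    (#A : ℝ) ≤ ε * X / Real.log Y + Y := by
  obtain ⟨Q, hQ0, hQ6, hQd⟩ : ∃ Q : ℕ, 0 < Q ∧ 6 ≤ Nat.totient Q ∧
      ∀ l : ℕ, 3 ∣ l → q ∣ l → Q ∣ l := by
    rcases hq with rfl | ⟨hqp, hq5⟩
    · exact ⟨9, by norm_num, by decide, fun l _ h => h⟩
    · have hcop : Nat.Coprime 3 q := (Nat.coprime_primes Nat.prime_three hqp).2 (by omega)
      refine ⟨3 * q, by omega, ?_, fun l h1 h2 => hcop.mul_dvd_of_dvd_of_dvd h1 h2⟩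
      rw [Nat.totient_mul hcop, Nat.totient_prime hqp, Nat.totient_prime Nat.prime_three]
      omega
  obtain ⟨C, c, Y1, hC, hc, hsv⟩ := sieve_W
  obtain ⟨C2, hC2, h2⟩ := mert FP FP_irreducible (by rw [FP_natDegree]; norm_num)
  obtain ⟨C3, hC3, h3⟩ := mert (cyclotomic Q ℤ) (cyclotomic.irreducible hQ0) (by
    rw [natDegree_cyclotomic]; omega)
  have hlog2 : 0 < Real.log 2 := Real.log_pos (by norm_num)
  obtain ⟨C4, hC4⟩ : ∃ C4 : ℝ, C4 = C2 + z + C3 / 3 := ⟨_, rfl⟩
  obtain ⟨K0, hK0⟩ := exists_nat_ge ((C4 - Real.log (ε / (C * c))) / (2 / 3 * Real.log 2))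
  obtain ⟨Y2, hY2⟩ := J_large hc K0
  refine ⟨Y1 + Y2 + 2, fun X Y hY hX A hA => ?_⟩
  obtain ⟨J, hJ, hJY, hJc, hmain⟩ := hsv Y (by omega)
  have hJJ : K0 ≤ J := hY2 Y (by omega) J hJc
  have hlogY : 0 < Real.log Y := Real.log_pos (by exact_mod_cast (by omega : 1 < Y))
  have hS : 2 / 3 * (J * Real.log 2) - C4 ≤
      ∑ l ∈ (Pr 3 J).filter (fun l => z < l ∧ ¬ q ∣ l - 1), (rho FP l : ℝ) / l := by
    have e1 := (abs_le.1 (h2 J hJ)).1
    have e2 := (abs_le.1 (h3 J hJ)).2
    have e3 := Finset.sum_filter_add_sum_filter_not (Pr 3 J) (fun l => z < l ∧ ¬ q ∣ l - 1)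
      (fun l => (rho FP l : ℝ) / l)
    have e4 : ∑ l ∈ (Pr 3 J).filter (fun l => ¬ (z < l ∧ ¬ q ∣ l - 1)), (rho FP l : ℝ) / l ≤
        z + 1 / 3 * ∑ l ∈ Pr 3 J, (rho (cyclotomic Q ℤ) l : ℝ) / l := by
      calc ∑ l ∈ (Pr 3 J).filter (fun l => ¬ (z < l ∧ ¬ q ∣ l - 1)), (rho FP l : ℝ) / l
          ≤ ∑ l ∈ (Pr 3 J).filter (fun l => ¬ (z < l ∧ ¬ q ∣ l - 1)),
            ((if l ≤ z then 1 else 0) + 1 / 3 * ((rho (cyclotomic Q ℤ) l : ℝ) / l)) := by
            apply Finset.sum_le_sum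
            intro l hl
            rw [mem_filter] at hl
            have hlp : l.Prime := (mem_filter.1 hl.1).2.1
            have hl6 : 6 < l := by have := (mem_filter.1 hl.1).2.2; omega
            have hl0 : (0 : ℝ) < l := by exact_mod_cast hlp.pos
            have hr2 : (rho FP l : ℝ) ≤ 2 := by exact_mod_cast rho_FP_le hlp
            have hl7 : (7 : ℝ) ≤ l := by exact_mod_cast (by omega : 7 ≤ l)
            by_cases hlz : l ≤ z
            · rw [if_pos hlz]
              have h5 : (rho FP l : ℝ) / l ≤ 1 := by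
                rw [div_le_one hl0]; linarith
              have h6 : 0 ≤ 1 / 3 * ((rho (cyclotomic Q ℤ) l : ℝ) / l) := by positivity
              linarith
            · rw [if_neg hlz, zero_add]
              have hql : q ∣ l - 1 := by
                by_contra hcon
                exact hl.2 ⟨not_le.1 hlz, hcon⟩
              rcases Nat.eq_zero_or_pos (rho FP l) with h0 | hpos
              · rw [h0, Nat.cast_zero, zero_div]; positivity
              · rw [rho_FP] at hpos
                obtain ⟨a, ha⟩ := card_pos.1 hpos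
                rw [mem_filter] at ha
                have h7 := three_dvd hlp (by omega) ha.2
                have h8 := rho_cyclotomic hlp hQ0 (hQd _ h7 hql)
                have h9 : (6 : ℝ) ≤ rho (cyclotomic Q ℤ) l := by exact_mod_cast hQ6.trans h8
                rw [← mul_div_assoc]
                gcongr
                linarith
        _ = (#(((Pr 3 J).filter (fun l => ¬ (z < l ∧ ¬ q ∣ l - 1))).filter (fun l => l ≤ z)) : ℝ) +
            1 / 3 * ∑ l ∈ (Pr 3 J).filter (fun l => ¬ (z < l ∧ ¬ q ∣ l - 1)),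
              ((rho (cyclotomic Q ℤ) l : ℝ) / l) := by
            rw [Finset.sum_add_distrib, ← Finset.mul_sum, Finset.sum_boole]
        _ ≤ _ := by
            apply add_le_add
            · have h5 : ((Pr 3 J).filter (fun l => ¬ (z < l ∧ ¬ q ∣ l - 1))).filter (fun l => l ≤ z) ⊆ Icc 1 z := by
                intro l hl
                rw [mem_filter, mem_filter] at hl
                have hlp : l.Prime := (mem_filter.1 hl.1.1).2.1
                rw [mem_Icc]
                exact ⟨hlp.one_lt.le, hl.2⟩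
              have h6 := card_le_card h5
              rw [Nat.card_Icc, Nat.add_sub_cancel] at h6
              exact_mod_cast h6
            · gcongr
              exact filter_subset _ _
    rw [hC4]
    linarith
  have h4 := hmain X (fun l => z < l ∧ ¬ q ∣ l - 1) (2 / 3 * (J * Real.log 2) - C4) hX (by convert hS) A (fun n hn => by
    obtain ⟨e1, e2, e3, e4⟩ := hA n hn
    refine ⟨e1, fun l hl hln => ?_, fun l hl hW hlv => ?_⟩
    · rw [(Nat.prime_dvd_prime_iff_eq hl e2).1 hln]; exact e3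
    · exact absurd (e4 l hl hlv hW.1) hW.2)
  have hexp : Real.exp (-(2 / 3 * (J * Real.log 2) - C4)) ≤ ε / (C * c) := by
    rw [← Real.le_log_iff_exp_le (by positivity)]
    rw [div_le_iff₀ (by positivity)] at hK0
    have h5 : (K0 : ℝ) * (2 / 3 * Real.log 2) ≤ J * (2 / 3 * Real.log 2) := by
      have : (K0 : ℝ) ≤ J := by exact_mod_cast hJJ
      gcongr
    linarith
  refine h4.trans ?_
  have h5 : C * X * (1 / 2 ^ J) * Real.exp (-(2 / 3 * (J * Real.log 2) - C4)) ≤ ε * X / Real.log Y := by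
    calc C * X * (1 / 2 ^ J) * Real.exp (-(2 / 3 * (J * Real.log 2) - C4))
        ≤ C * X * (c / Real.log Y) * (ε / (C * c)) := by gcongr
      _ = _ := by field_simp
  linarith

end Pool.Agent.TH506.PMU
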