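import Pool.Agent.TH506.PMU.BadC
import Pool.Agent.TH506.PMU.BadB

/-!
Almost all primes are good.
-/

set_option autoImplicit false

namespace Pool.Agent.TH506.PMU

open Finset Polynomial Filter Topology Asymptotics Pool.Agent.TH506.APD
open Pool.Agent.H410R2.ED Pool.Agent.H474R2.PG

lemma err_pow {w X : ℕ} (hw3 : 3 ≤ w) (hw1 : w ^ 16 ≤ X) {g : ℝ} (hg : g = (w : ℝ) ^ (-(1 / 2) : ℝ)) (hg0 : 0 < g) (i : ℕ)
    (hi : i ≤ 15) : (w : ℝ) ^ i ≤ X * g := by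
  have hwr : (3 : ℝ) ≤ w := by exact_mod_cast hw3
  have hwr0 : (0 : ℝ) < w := by linarith
  have hXw : (w : ℝ) ^ 16 ≤ X := by exact_mod_cast hw1
  have e1 : (w : ℝ) ^ i ≤ (w : ℝ) ^ 15 := pow_le_pow_right₀ (by linarith) hi
  have e2 : (w : ℝ) ^ 15 ≤ (w : ℝ) ^ 16 * g := by
    have e3 : (w : ℝ) ^ 16 = (w : ℝ) ^ 15 * w := by ring
    have e4 : 1 ≤ w * g := by
      rw [hg]
      have e5 : (w : ℝ) * (w : ℝ) ^ (-(1 / 2) : ℝ) = (w : ℝ) ^ (1 / 2 : ℝ) := by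
        nth_rewrite 1 [← Real.rpow_one (w : ℝ)]
        rw [← Real.rpow_add hwr0]; norm_num
      rw [e5]
      exact Real.one_le_rpow (by linarith) (by norm_num)
    rw [e3, mul_assoc]
    exact le_mul_of_one_le_right (by positivity) e4
  calc (w : ℝ) ^ i ≤ (w : ℝ) ^ 16 * g := e1.trans e2
    _ ≤ X * g := mul_le_mul_of_nonneg_right hXw hg0.le

lemma err_rpow {w X : ℕ} (hw3 : 3 ≤ w) (hw1 : w ^ 16 ≤ X) {g : ℝ} (hg : g = (w : ℝ) ^ (-(1 / 2) : ℝ)) :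
    (X : ℝ) ^ (3 / 4 : ℝ) ≤ X * g := by
  have hwr : (3 : ℝ) ≤ w := by exact_mod_cast hw3
  have hwr0 : (0 : ℝ) < w := by linarith
  have hXw : (w : ℝ) ^ 16 ≤ X := by exact_mod_cast hw1
  have hX0 : (0 : ℝ) < X := lt_of_lt_of_le (by positivity) hXw
  have e1 : (X : ℝ) ^ (3 / 4 : ℝ) = X * (X : ℝ) ^ (-(1 / 4) : ℝ) := by
    nth_rewrite 2 [← Real.rpow_one (X : ℝ)]
    rw [← Real.rpow_add hX0]; norm_num
  rw [e1]
  apply mul_le_mul_of_nonneg_left _ hX0.le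
  rw [hg, Real.rpow_neg hX0.le, Real.rpow_neg hwr0.le]
  apply inv_anti₀ (by positivity)
  calc (w : ℝ) ^ (1 / 2 : ℝ) = ((w : ℝ) ^ 2) ^ (1 / 4 : ℝ) := by
        rw [← Real.rpow_natCast, ← Real.rpow_mul hwr0.le]; norm_num
    _ ≤ (X : ℝ) ^ (1 / 4 : ℝ) := by
        apply Real.rpow_le_rpow (by positivity) _ (by norm_num)
        exact (pow_le_pow_right₀ (by linarith) (by norm_num : 2 ≤ 16)).trans hXw

lemma err_sum {w X Y T : ℕ} {C K g : ℝ} (hC : 0 < C) (hwr : (3 : ℝ) ≤ w)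
    (hK : K = 2 * C + 3 * (81 * C + 36) + (T + 4))
    (hYr : (Y : ℝ) = (w : ℝ) ^ 8) (hpw : ∀ i : ℕ, i ≤ 15 → (w : ℝ) ^ i ≤ X * g) (hX34 : (X : ℝ) ^ (3 / 4 : ℝ) ≤ X * g) :
    C * (X * g + (X : ℝ) ^ (3 / 4 : ℝ)) + ((w : ℝ) + 2) * (C * ((w : ℝ) + 2) ^ 4 + 4 * ((w : ℝ) + 2) ^ 2 * Y) +
      (T + 4) * Y ≤ K * (X * g) := by
  have e1 : (w : ℝ) + 2 ≤ 3 * w := by linarith
  have e2 : ((w : ℝ) + 2) * (C * ((w : ℝ) + 2) ^ 4 + 4 * ((w : ℝ) + 2) ^ 2 * Y) ≤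
      (3 * w) * (C * (3 * w) ^ 4 + 4 * (3 * w) ^ 2 * Y) := by gcongr
  have e3 : (3 * (w : ℝ)) * (C * (3 * w) ^ 4 + 4 * (3 * w) ^ 2 * Y) =
      3 * (81 * C) * (w : ℝ) ^ 5 + 3 * 36 * (w : ℝ) ^ 11 := by rw [hYr]; ring
  have e4 : 3 * (81 * C) * (w : ℝ) ^ 5 ≤ 3 * (81 * C) * (X * g) :=
    mul_le_mul_of_nonneg_left (hpw 5 (by norm_num)) (by positivity)
  have e5 : 3 * 36 * (w : ℝ) ^ 11 ≤ 3 * 36 * (X * g) :=
    mul_le_mul_of_nonneg_left (hpw 11 (by norm_num)) (by positivity)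
  have e6 : ((T : ℝ) + 4) * Y ≤ (T + 4) * (X * g) := by
    rw [hYr]
    exact mul_le_mul_of_nonneg_left (hpw 8 (by norm_num)) (by positivity)
  have e7 : C * (X * g + (X : ℝ) ^ (3 / 4 : ℝ)) ≤ C * (X * g + X * g) :=
    mul_le_mul_of_nonneg_left (by linarith) hC.le
  rw [hK]
  linarith

lemma err_avg {T q η X L Y : ℝ} (hT : 0 ≤ T) (hη : 0 < η) (hX : 0 ≤ X) (hL : 0 < L) (hY : 0 ≤ Y)
    (hq : q ≤ T + 2) :
    q * ((η / (16 * (T + 2))) * X / L + Y) ≤ (η / 16) * X / L + (T + 2) * Y := by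
  have h1 : 0 ≤ (η / (16 * (T + 2))) * X / L + Y := by positivity
  refine (mul_le_mul_of_nonneg_right hq h1).trans_eq ?_
  have h2 : T + 2 ≠ 0 := by linarith
  have h3 : L ≠ 0 := hL.ne'
  field_simp

lemma err_log {w X : ℕ} {K g η : ℝ} (hK : 0 < K) (hη : 0 < η) (hwr0 : (0 : ℝ) < w) (hg : g = (w : ℝ) ^ (-(1 / 2) : ℝ)) (hg0 : 0 < g)
    (hlogw : Real.log w ≤ η / (128 * K) * (w : ℝ) ^ (1 / 2 : ℝ)) (hlogX : Real.log X ≤ 32 * Real.log w) :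
    K * (X * g) * Real.log X ≤ η / 4 * X := by
  have e1 : g * (w : ℝ) ^ (1 / 2 : ℝ) = 1 := by
    rw [hg, ← Real.rpow_add hwr0]; norm_num
  have h0 : 0 ≤ K * (X * g) := by positivity
  have h1 : Real.log X ≤ 32 * (η / (128 * K) * (w : ℝ) ^ (1 / 2 : ℝ)) := by linarith
  refine (mul_le_mul_of_nonneg_left h1 h0).trans_eq ?_
  have h2 : K ≠ 0 := hK.ne'
  calc K * (X * g) * (32 * (η / (128 * K) * (w : ℝ) ^ (1 / 2 : ℝ)))
      = (K / K) * (η / 4 * X) * (g * (w : ℝ) ^ (1 / 2 : ℝ)) := by ring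
    _ = η / 4 * X := by rw [e1, mul_one, div_self h2, one_mul]

lemma err_fin {a X η K g L M : ℝ} (hL : 0 < L) (hM : 0 ≤ M) (hX : 0 ≤ X) (hη : 0 < η)
    (htot : a ≤ 3 * (η / 16) * (X / L) + K * (X * g)) (hML : M ≤ 4 * L)
    (hfin : K * (X * g) * M ≤ η / 4 * X) : a * M ≤ η * X := by
  have h1 : 3 * (η / 16) * (X / L) * M ≤ 3 * (η / 16) * (X / L) * (4 * L) :=
    mul_le_mul_of_nonneg_left hML (by positivity)
  have h2 : 3 * (η / 16) * (X / L) * (4 * L) = 3 / 4 * (η * X) * (L / L) := by ring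
  rw [div_self hL.ne', mul_one] at h2
  have h3 : a * M ≤ (3 * (η / 16) * (X / L) + K * (X * g)) * M := mul_le_mul_of_nonneg_right htot hM
  have h4 : (3 * (η / 16) * (X / L) + K * (X * g)) * M = 3 * (η / 16) * (X / L) * M + K * (X * g) * M := by ring
  linarith

lemma err_logX {w X : ℕ} (hw3 : 3 ≤ w) (hX1 : 1 ≤ X) (hw2 : X < (w + 1) ^ 16) :
    Real.log X ≤ 32 * Real.log w := by
  have hsq : w + 1 ≤ w ^ 2 := by nlinarith
  have e1 : (X : ℝ) ≤ ((w : ℝ) ^ 2) ^ 16 := by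
    have e2 : X ≤ (w ^ 2) ^ 16 := hw2.le.trans (Nat.pow_le_pow_left hsq 16)
    exact_mod_cast e2
  have e3 := Real.log_le_log (by exact_mod_cast hX1) e1
  rw [Real.log_pow, Real.log_pow] at e3
  push_cast at e3
  linarith

lemma err_logXY {w X Y : ℕ} (hYr : (Y : ℝ) = (w : ℝ) ^ 8) (hlogX : Real.log X ≤ 32 * Real.log w) :
    Real.log X ≤ 4 * Real.log Y := by
  rw [hYr, Real.log_pow]; push_cast; linarith

lemma err_logw {w : ℕ} {x0 c : ℝ} (hwr : (3 : ℝ) ≤ w)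
    (hx0 : ∀ b : ℝ, b ≥ x0 → ‖Real.log b‖ ≤ c * ‖b ^ (1 / 2 : ℝ)‖) (hx : ⌈x0⌉₊ ≤ w) :
    Real.log w ≤ c * (w : ℝ) ^ (1 / 2 : ℝ) := by
  have e1 : x0 ≤ w := (Nat.le_ceil _).trans (by exact_mod_cast hx)
  have e2 := hx0 w e1
  rwa [Real.norm_of_nonneg (Real.log_nonneg (by linarith)), Real.norm_of_nonneg (by positivity)] at e2

lemma err_tot {a a0 a1 a2 a3 η X L Y U V K G T : ℝ}
    (h : a ≤ a0 + a1 + a2 + a3) (b0 : a0 ≤ Y) (b1 : a1 ≤ η / 16 * X / L + U + V)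
    (b2 : a2 ≤ η / 16 * X / L + Y) (b3 : a3 ≤ (η / 16) * X / L + (T + 2) * Y)
    (herr : U + V + (T + 4) * Y ≤ K * G) : a ≤ 3 * (η / 16) * (X / L) + K * G := by
  have e1 : η / 16 * X / L = η / 16 * (X / L) := by ring
  rw [e1] at b1 b2 b3
  linarith

/-- primes for which the algebraic part applies -/
def GoodN (n : ℕ) : Prop := ∃ z : ℕ, ¬ E1 z n ∧
  ∀ q : ℕ, (q = 9 ∨ (q.Prime ∧ 5 ≤ q)) → ∃ r : ℕ, r.Prime ∧ r ∣ n ^ 2 + n + 1 ∧ z < r ∧ ¬ q ∣ r - 1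

set_option maxHeartbeats 4000000 in
open Classical in
theorem notGood_small {η : ℝ} (hη : 0 < η) : ∃ X0 : ℕ, ∀ X : ℕ, X0 ≤ X →
    (#((Icc 2 X).filter (fun n => n.Prime ∧ ¬ GoodN n)) : ℝ) * Real.log X ≤ η * X := by
  obtain ⟨C, j0, Y1, hC, hE⟩ := E1_prime (δ := η / 16) (by positivity)
  obtain ⟨z, hz⟩ : ∃ z : ℕ, z = j0 ^ 2 := ⟨_, rfl⟩
  obtain ⟨T, Y2, hCs⟩ := set_C (ε := η / 16) (by positivity) z
  obtain ⟨Qs, hQs⟩ : ∃ Qs : Finset ℕ, Qs = insert 9 ((range (T + 1)).filter (fun q => q.Prime ∧ 5 ≤ q)) := ⟨_, rfl⟩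
  have hQm : ∀ q ∈ Qs, q = 9 ∨ (q.Prime ∧ 5 ≤ q) := by
    intro q hq
    rw [hQs, mem_insert, mem_filter] at hq
    rcases hq with h | h
    · exact Or.inl h
    · exact Or.inr h.2
  have hQc : (#Qs : ℝ) ≤ T + 2 := by
    have h1 : #Qs ≤ (T + 1) + 1 := by
      rw [hQs]
      refine (card_insert_le _ _).trans ?_
      have h2 := card_filter_le (range (T + 1)) (fun q => q.Prime ∧ 5 ≤ q)
      rw [card_range] at h2
      omega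
    exact_mod_cast h1
  have hB : ∀ q : ℕ, ∃ Y0 : ℕ, q ∈ Qs → ∀ X Y : ℕ, Y0 ≤ Y → 1 ≤ X → ∀ A : Finset ℕ,
      (∀ n ∈ A, n ≤ X ∧ n.Prime ∧ Y < n ∧ ∀ r : ℕ, r.Prime → r ∣ n ^ 2 + n + 1 → z < r → q ∣ r - 1) →
      (#A : ℝ) ≤ (η / (16 * (T + 2))) * X / Real.log Y + Y := by
    intro q
    by_cases hq : q ∈ Qs
    · obtain ⟨Y0, h⟩ := set_B (ε := η / (16 * (T + 2))) (by positivity) z q (hQm q hq)
      exact ⟨Y0, fun _ => h⟩
    · exact ⟨0, fun h => absurd h hq⟩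
  choose Y3 hY3 using hB
  obtain ⟨K, hK⟩ : ∃ K : ℝ, K = 2 * C + 3 * (81 * C + 36) + (T + 4) := ⟨_, rfl⟩
  have hK0 : 0 < K := by rw [hK]; positivity
  have h1 := (isLittleO_log_rpow_atTop (show (0 : ℝ) < 1 / 2 by norm_num)).bound
    (show (0 : ℝ) < η / (128 * K) by positivity)
  obtain ⟨x0, hx0⟩ := eventually_atTop.1 h1
  obtain ⟨w0, hw0⟩ : ∃ w0 : ℕ, w0 = 3 + Y1 + Y2 + ∑ q ∈ Qs, Y3 q + ⌈x0⌉₊ := ⟨_, rfl⟩
  refine ⟨w0 ^ 16, fun X hX => ?_⟩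
  obtain ⟨w, hw1, hw2⟩ := exists_root 16 (by norm_num) X
  have hww : w0 ≤ w := by
    by_contra hcon
    push Not at hcon
    exact absurd (hX.trans_lt hw2) (not_lt.2 (Nat.pow_le_pow_left hcon 16))
  obtain ⟨Y, hY⟩ : ∃ Y : ℕ, Y = w ^ 8 := ⟨_, rfl⟩
  have hwY : w ≤ Y := by rw [hY]; exact Nat.le_self_pow (by norm_num) w
  have hw3 : 3 ≤ w := by omega
  have hX1 : 1 ≤ X := le_trans (Nat.one_le_pow _ _ (by omega)) hw1
  set A := (Icc 2 X).filter (fun n => n.Prime ∧ ¬ GoodN n) with hA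
  have hAm : ∀ n ∈ A, n ≤ X ∧ n.Prime ∧ ¬ GoodN n := by
    intro n hn
    rw [hA, mem_filter, mem_Icc] at hn
    exact ⟨hn.1.2, hn.2.1, hn.2.2⟩
  set A0 := A.filter (fun n => n ≤ Y) with hA0
  set A1 := A.filter (fun n => Y < n ∧ E1 z n) with hA1
  set A2 := A.filter (fun n => Y < n ∧ ∀ r : ℕ, r.Prime → r ∣ n ^ 2 + n + 1 → z < r → T < r) with hA2
  set A3 : ℕ → Finset ℕ := fun q => A.filter (fun n => Y < n ∧
    ∀ r : ℕ, r.Prime → r ∣ n ^ 2 + n + 1 → z < r → q ∣ r - 1) with hA3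
  have hcov : A ⊆ A0 ∪ (A1 ∪ (A2 ∪ Qs.biUnion A3)) := by
    intro n hn
    obtain ⟨h2, h3, h4⟩ := hAm n hn
    rw [mem_union, mem_union, mem_union]
    by_cases h5 : n ≤ Y
    · left; exact mem_filter.2 ⟨hn, h5⟩
    right
    push Not at h5
    by_cases h6 : E1 z n
    · left; exact mem_filter.2 ⟨hn, h5, h6⟩
    right
    by_cases h7 : ∀ r : ℕ, r.Prime → r ∣ n ^ 2 + n + 1 → z < r → T < r
    · left; exact mem_filter.2 ⟨hn, h5, h7⟩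
    right
    have h8 : ¬ ∀ q : ℕ, (q = 9 ∨ (q.Prime ∧ 5 ≤ q)) →
        ∃ r : ℕ, r.Prime ∧ r ∣ n ^ 2 + n + 1 ∧ z < r ∧ ¬ q ∣ r - 1 := fun h => h4 ⟨z, h6, h⟩
    push Not at h8
    obtain ⟨q, hq, hqr⟩ := h8
    push Not at h7
    obtain ⟨r0, hr0, hr0v, hzr0, hr0T⟩ := h7
    rw [mem_biUnion]
    refine ⟨q, ?_, mem_filter.2 ⟨hn, h5, hqr⟩⟩
    rw [hQs, mem_insert, mem_filter, mem_range]
    rcases hq with hq | hq
    · exact Or.inl hq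
    · right
      refine ⟨?_, hq⟩
      have := Nat.le_of_dvd (by have := hr0.two_le; omega) (hqr r0 hr0 hr0v hzr0)
      omega
  have hcard : #A ≤ #A0 + #A1 + #A2 + ∑ q ∈ Qs, #(A3 q) := by
    have e0 := (card_le_card hcov).trans (card_union_le _ _)
    have e1 := card_union_le A1 (A2 ∪ Qs.biUnion A3)
    have e2 := card_union_le A2 (Qs.biUnion A3)
    have e3 : #(Qs.biUnion A3) ≤ ∑ q ∈ Qs, #(A3 q) := card_biUnion_le
    omega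
  have hcardr : (#A : ℝ) ≤ #A0 + #A1 + #A2 + ∑ q ∈ Qs, (#(A3 q) : ℝ) := by exact_mod_cast hcard
  have b0 : (#A0 : ℝ) ≤ Y := by
    have e1 : A0 ⊆ Icc 1 Y := by
      intro n hn
      rw [hA0, mem_filter] at hn
      rw [mem_Icc]
      exact ⟨(hAm n hn.1).2.1.one_lt.le, hn.2⟩
    have e2 := card_le_card e1
    rw [Nat.card_Icc, Nat.add_sub_cancel] at e2
    exact_mod_cast e2
  have b1 := hE X Y w (by omega) hX1 (by omega) A1 (fun n hn => by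
    rw [hA1, mem_filter] at hn
    obtain ⟨h2, h3, h4⟩ := hAm n hn.1
    rw [← hz]
    exact ⟨h2, h3, hn.2.1, hn.2.2⟩)
  have b2 := hCs X Y (by omega) hX1 A2 (fun n hn => by
    rw [hA2, mem_filter] at hn
    obtain ⟨h2, h3, h4⟩ := hAm n hn.1
    exact ⟨h2, h3, hn.2.1, hn.2.2⟩)
  have hYr0 : (1 : ℝ) < Y := by exact_mod_cast (by omega : 1 < Y)
  have hlogY : 0 < Real.log Y := Real.log_pos hYr0
  have hXr : (1 : ℝ) ≤ X := by exact_mod_cast hX1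
  have b3 : ∑ q ∈ Qs, (#(A3 q) : ℝ) ≤ (η / 16) * X / Real.log Y + (T + 2) * Y := by
    calc ∑ q ∈ Qs, (#(A3 q) : ℝ) ≤ ∑ q ∈ Qs, ((η / (16 * (T + 2))) * X / Real.log Y + Y) := by
          apply Finset.sum_le_sum
          intro q hq
          refine hY3 q hq X Y ?_ hX1 (A3 q) (fun n hn => ?_)
          · have h2 : Y3 q ≤ ∑ q ∈ Qs, Y3 q := Finset.single_le_sum (f := Y3) (fun i _ => Nat.zero_le _) hq
            omega
          · simp only [hA3, mem_filter] at hn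
            obtain ⟨h2, h3, h4⟩ := hAm n hn.1
            exact ⟨h2, h3, hn.2.1, hn.2.2⟩
      _ = #Qs * ((η / (16 * (T + 2))) * X / Real.log Y + Y) := by rw [sum_const, nsmul_eq_mul]
      _ ≤ _ := err_avg (Nat.cast_nonneg T) hη (Nat.cast_nonneg X) hlogY (Nat.cast_nonneg Y) hQc
  -- the error terms
  have hwr : (3 : ℝ) ≤ w := by exact_mod_cast hw3
  have hwr0 : (0 : ℝ) < w := lt_of_lt_of_le (by norm_num) hwr
  have hYr : (Y : ℝ) = (w : ℝ) ^ 8 := by rw [hY, Nat.cast_pow]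
  have hx0w : ⌈x0⌉₊ ≤ w := le_trans (by rw [hw0]; exact Nat.le_add_left _ _) hww
  obtain ⟨g, hg⟩ : ∃ g : ℝ, g = (w : ℝ) ^ (-(1 / 2) : ℝ) := ⟨_, rfl⟩
  have hg0 : 0 < g := by rw [hg]; exact Real.rpow_pos_of_pos hwr0 _
  rw [← hg] at b1
  have hpw : ∀ i : ℕ, i ≤ 15 → (w : ℝ) ^ i ≤ X * g := fun i hi => err_pow hw3 hw1 hg hg0 i hi
  have hX34 : (X : ℝ) ^ (3 / 4 : ℝ) ≤ X * g := err_rpow hw3 hw1 hg
  have herr := err_sum hC hwr hK hYr hpw hX34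
  have hlogw := err_logw hwr hx0 hx0w
  have hlogX : Real.log X ≤ 32 * Real.log w := err_logX hw3 hX1 hw2
  have hlogXY : Real.log X ≤ 4 * Real.log Y := err_logXY hYr hlogX
  have htot := err_tot hcardr b0 b1 b2 b3 herr
  have hfin : K * (X * g) * Real.log X ≤ η / 4 * X := err_log hK0 hη hwr0 hg hg0 hlogw hlogX
  exact err_fin hlogY (Real.log_nonneg hXr) (Nat.cast_nonneg X) hη htot hlogXY hfin

end Pool.Agent.TH506.PMU
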