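import Pool.Agent.TH506.PMU.Cnt
import Pool.Agent.TH506.PMU.BadJ

/-!
Few primes have all large prime factors of the order very large.
-/

set_option autoImplicit false

namespace Pool.Agent.TH506.PMU

open Finset Polynomial Filter Topology Asymptotics Pool.Agent.TH506.APD
open Pool.Agent.H410R2.ED Pool.Agent.H474R2.PG

set_option maxHeartbeats 4000000 in
open Classical in
theorem set_C {ε : ℝ} (hε : 0 < ε) (z : ℕ) : ∃ T Y0 : ℕ, ∀ X Y : ℕ, Y0 ≤ Y → 1 ≤ X → ∀ A : Finset ℕ,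
    (∀ n ∈ A, n ≤ X ∧ n.Prime ∧ Y < n ∧ ∀ r : ℕ, r.Prime → r ∣ n ^ 2 + n + 1 → z < r → T < r) →
    (#A : ℝ) ≤ ε * X / Real.log Y + Y := by
  obtain ⟨C, c, Y1, hC, hc, hsv⟩ := sieve_W
  obtain ⟨C2, hC2, h2⟩ := mert FP FP_irreducible (by rw [FP_natDegree]; norm_num)
  obtain ⟨m, hm⟩ := exists_pow_lt_of_lt_one (show 0 < ε / (C * c * Real.exp (2 * C2)) by positivity)
    (show (1 / 2 : ℝ) < 1 by norm_num)
  obtain ⟨J1, hJ1, hz⟩ : ∃ J1 : ℕ, 1 ≤ J1 ∧ z < 2 ^ 2 ^ J1 := by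
    refine ⟨z + 1, by omega, ?_⟩
    have h3 : z + 1 < 2 ^ (z + 1) := Nat.lt_two_pow_self
    have h4 : 2 ^ (z + 1) < 2 ^ 2 ^ (z + 1) := Nat.lt_two_pow_self
    omega
  obtain ⟨J2, hJ2⟩ : ∃ J2 : ℕ, J2 = J1 + m := ⟨_, rfl⟩
  obtain ⟨Y2, hY2⟩ := J_large hc J2
  refine ⟨2 ^ 2 ^ J2, Y1 + Y2 + 2, fun X Y hY hX A hA => ?_⟩
  obtain ⟨J, hJ, hJY, hJc, hmain⟩ := hsv Y (by omega)
  have hJJ : J2 ≤ J := hY2 Y (by omega) J hJc
  have hlogY : 0 < Real.log Y := Real.log_pos (by exact_mod_cast (by omega : 1 < Y))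
  obtain ⟨W, hW⟩ : ∃ W : ℕ → Prop, ∀ l, W l ↔ 2 ^ 2 ^ J1 ≤ l ∧ l < 2 ^ 2 ^ J2 :=
    ⟨fun l => 2 ^ 2 ^ J1 ≤ l ∧ l < 2 ^ 2 ^ J2, fun _ => Iff.rfl⟩
  have hS : m * Real.log 2 - 2 * C2 ≤ ∑ l ∈ (Pr 3 J).filter W, (rho FP l : ℝ) / l := by
    have e1 := (abs_le.1 (h2 J2 (by omega))).1
    have e2 := (abs_le.1 (h2 J1 hJ1)).2
    have e3 : ∑ l ∈ Pr 3 J2, (rho FP l : ℝ) / l ≤
        ∑ l ∈ Pr 3 J1 ∪ (Pr 3 J).filter W, (rho FP l : ℝ) / l := by
      apply Finset.sum_le_sum_of_subset_of_nonneg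
      · intro l hl
        unfold Pr at hl
        rw [mem_filter, mem_range] at hl
        rw [mem_union]
        unfold Pr
        rw [mem_filter, mem_filter, mem_filter, mem_range, mem_range]
        by_cases h3 : l < 2 ^ 2 ^ J1
        · left; exact ⟨h3, hl.2⟩
        · right
          refine ⟨⟨lt_of_lt_of_le hl.1 ?_, hl.2⟩, (hW l).2 ⟨not_lt.1 h3, hl.1⟩⟩
          exact Nat.pow_le_pow_right (by norm_num) (Nat.pow_le_pow_right (by norm_num) hJJ)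
      · intro i _ _; positivity
    have e4 : ∑ l ∈ Pr 3 J1 ∪ (Pr 3 J).filter W, (rho FP l : ℝ) / l ≤
        ∑ l ∈ Pr 3 J1, (rho FP l : ℝ) / l +
        ∑ l ∈ (Pr 3 J).filter W, (rho FP l : ℝ) / l := by
      rw [← Finset.sum_union_inter]
      have : 0 ≤ ∑ l ∈ Pr 3 J1 ∩ (Pr 3 J).filter W, (rho FP l : ℝ) / l :=
        Finset.sum_nonneg fun i _ => by positivity
      linarith
    have e5 : (J2 : ℝ) = J1 + m := by rw [hJ2]; push_cast; ring
    have e6 : (J2 : ℝ) * Real.log 2 = J1 * Real.log 2 + m * Real.log 2 := by rw [e5]; ring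
    linarith
  have h3 := hmain X W (m * Real.log 2 - 2 * C2) hX hS A (fun n hn => by
    obtain ⟨e1, e2, e3, e4⟩ := hA n hn
    refine ⟨e1, fun l hl hln => ?_, fun l hl hWl hlv => ?_⟩
    · rw [(Nat.prime_dvd_prime_iff_eq hl e2).1 hln]; exact e3
    · rw [hW] at hWl
      have := e4 l hl hlv (hz.trans_le hWl.1)
      exact absurd hWl.2 (not_lt.2 this.le))
  have hexp : Real.exp (-(m * Real.log 2 - 2 * C2)) = Real.exp (2 * C2) * (1 / 2) ^ m := by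
    have e1 : -(m * Real.log 2 - 2 * C2) = 2 * C2 + -Real.log (2 ^ m) := by
      rw [Real.log_pow]; ring
    rw [e1, Real.exp_add, Real.exp_neg, Real.exp_log (by positivity), one_div, inv_pow]
  refine h3.trans ?_
  have h4 : C * c * Real.exp (2 * C2) * (1 / 2) ^ m ≤ ε := by
    have h5 := (mul_lt_mul_of_pos_left hm (show 0 < C * c * Real.exp (2 * C2) by positivity)).le
    rwa [mul_div_cancel₀ _ (show C * c * Real.exp (2 * C2) ≠ 0 by positivity)] at h5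
  have h5 : C * X * (1 / 2 ^ J) * Real.exp (-(m * Real.log 2 - 2 * C2)) ≤ ε * X / Real.log Y := by
    rw [hexp]
    calc C * X * (1 / 2 ^ J) * (Real.exp (2 * C2) * (1 / 2) ^ m)
        ≤ C * X * (c / Real.log Y) * (Real.exp (2 * C2) * (1 / 2) ^ m) := by gcongr
      _ = (C * c * Real.exp (2 * C2) * (1 / 2) ^ m) * (X / Real.log Y) := by ring
      _ ≤ ε * (X / Real.log Y) := by gcongr
      _ = _ := by ring
  linarith

end Pool.Agent.TH506.PMU
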