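import Pool.Agent.TH506.PMU.Cyc
import Pool.Agent.TH506.APD.Tail
import Pool.Agent.TH506.APD.Smo

/-!
Counting primes `n` in the exceptional sets.
-/

set_option autoImplicit false

namespace Pool.Agent.TH506.PMU

open Finset Polynomial Pool.Agent.TH506.APD
open Pool.Agent.H410R2.ED Pool.Agent.H474R2.PG

lemma card_div_le (s : ℕ) : s.divisors.card ≤ s := by
  have h1 : s.divisors ⊆ Icc 1 s := by
    intro d hd
    rw [Nat.mem_divisors] at hd
    rw [mem_Icc]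
    exact ⟨Nat.pos_of_ne_zero (by rintro rfl; exact hd.2 (Nat.eq_zero_of_zero_dvd hd.1)),
      Nat.le_of_dvd (Nat.pos_of_ne_zero hd.2) hd.1⟩
  have h2 := card_le_card h1
  rwa [Nat.card_Icc, Nat.add_sub_cancel] at h2

open Classical in
theorem prime_cls : ∃ (C : ℝ) (Y0 : ℕ), 0 < C ∧ ∀ X Y s : ℕ, Y0 ≤ Y → 0 < s → ∀ A : Finset ℕ,
    (∀ n ∈ A, n ≤ X ∧ n.Prime ∧ Y < n ∧ s ∣ n ^ 2 + n + 1) →
    (#A : ℝ) ≤ C * X / Real.log Y * ((s.divisors.card : ℝ) ^ 2 / s) + C * (s : ℝ) ^ 2 + 4 * s * Y := by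
  obtain ⟨c, hc, hsv⟩ := sieve_exp
  obtain ⟨C1, hC1, h1⟩ := mert (Polynomial.X : ℤ[X]) Polynomial.irreducible_X (by rw [natDegree_X]; norm_num)
  have hlog2 : 0 < Real.log 2 := Real.log_pos (by norm_num)
  have hlog2' := Real.log_two_gt_d9
  have hc0 : (0 : ℝ) < c := by exact_mod_cast hc
  obtain ⟨K0, hK0⟩ : ∃ K0 : ℝ, K0 = 8 * c * Real.log 2 := ⟨_, rfl⟩
  have hK0p : 0 < K0 := by rw [hK0]; positivity
  refine ⟨8 * Real.exp C1 * K0, 2 ^ (16 * c), by positivity, fun X Y s hY0 hs A hA => ?_⟩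
  obtain ⟨J, hJ, hJ2, hJ3, hJ4⟩ := exists_level3 hc hY0
  rw [← hK0] at hJ4
  have hY3 : 3 ≤ Y := by
    have : 2 ^ 2 ≤ 2 ^ (16 * c) := Nat.pow_le_pow_right (by norm_num) (by omega)
    omega
  have hYr : (3 : ℝ) ≤ Y := by exact_mod_cast hY3
  have hlogY : 1 ≤ Real.log Y := by
    rw [Real.le_log_iff_exp_le (by linarith)]
    have := Real.exp_one_lt_d9
    linarith
  have hsr : (0 : ℝ) < s := by exact_mod_cast hs
  obtain ⟨τ, hτ⟩ : ∃ τ : ℝ, τ = (s.divisors.card : ℝ) := ⟨_, rfl⟩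
  have hτs : τ ≤ s := by rw [hτ]; exact_mod_cast card_div_le s
  have hτ0 : 0 ≤ τ := by rw [hτ]; positivity
  rw [← hτ]
  set Rt : Finset ℕ := (range s).filter (fun a => s ∣ a ^ 2 + a + 1) with hRt
  obtain ⟨P, hP⟩ : ∃ P : ℕ → ℕ → ℕ → Prop, ∀ a l t, P a l t ↔ (¬ l ∣ s ∧ l ∣ a + s * t) :=
    ⟨_, fun _ _ _ => Iff.rfl⟩
  set St : ℕ → Finset ℕ := fun a => (range (X / s + 1)).filter (fun t => ∀ l ∈ Pr 3 J, ¬ P a l t) with hSt
  have hsub : A ⊆ Rt.biUnion (fun a => (St a).image (fun t => a + s * t)) := by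
    intro n hn
    obtain ⟨hnX, hnp, hYn, hsn⟩ := hA n hn
    have hdm : n % s + s * (n / s) = n := Nat.mod_add_div n s
    rw [mem_biUnion]
    refine ⟨n % s, ?_, ?_⟩
    · rw [hRt, mem_filter, mem_range]
      refine ⟨Nat.mod_lt _ hs, ?_⟩
      rw [dvd_val_congr (Nat.mod_modEq n s)]
      exact hsn
    · rw [mem_image]
      refine ⟨n / s, ?_, hdm⟩
      rw [hSt]
      simp only [mem_filter, mem_range]
      refine ⟨Nat.lt_succ_of_le (Nat.div_le_div_right hnX), ?_⟩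
      intro l hl hPl
      obtain ⟨hls, hdvd⟩ := (hP _ _ _).1 hPl
      rw [hdm] at hdvd
      have hlp : l.Prime := (mem_filter.1 hl).2.1
      have hlt : l < 2 ^ 2 ^ J := mem_range.1 (mem_filter.1 hl).1
      have h2 : l = n := (Nat.prime_dvd_prime_iff_eq hlp hnp).1 hdvd
      omega
  have hRtc : (#Rt : ℝ) ≤ 4 * τ := by
    have h1 := count_dvd (X := s) hs Rt (fun x hx => (mem_range.1 (mem_filter.1 hx).1).le)
      (fun x hx => (mem_filter.1 hx).2)
    have h2 : 3 * (s : ℝ) / s + 1 = 4 := by field_simp; norm_num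
    rw [h2, ← hτ] at h1
    linarith
  have hStc : ∀ a ∈ Rt, (#(St a) : ℝ) ≤ 2 * (X / s + 1) * (Real.exp C1 * τ * (K0 / Real.log Y)) + Y := by
    intro a _
    have hper : ∀ l t, P a l (t + l) ↔ P a l t := by
      intro l t
      rw [hP, hP]
      have h3 : a + s * (t + l) = a + s * t + l * s := by ring
      rw [h3, Nat.dvd_add_left (dvd_mul_right l s)]
    have huniq : ∀ l : ℕ, l.Prime → #((range l).filter (P a l)) ≤ 1 := by
      intro l hl
      rw [card_le_one]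
      intro t ht t' ht'
      rw [mem_filter, mem_range, hP] at ht ht'
      have : Fact l.Prime := ⟨hl⟩
      have hs0 : (s : ZMod l) ≠ 0 := fun h => ht.2.1 ((ZMod.natCast_eq_zero_iff s l).1 h)
      have h3 := (ZMod.natCast_eq_zero_iff (a + s * t) l).2 ht.2.2
      have h4 := (ZMod.natCast_eq_zero_iff (a + s * t') l).2 ht'.2.2
      push_cast at h3 h4
      have h5 : (s : ZMod l) * t = s * t' := by linear_combination h3 - h4
      have h6 := (ZMod.natCast_eq_natCast_iff' _ _ _).1 (mul_left_cancel₀ hs0 h5)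
      rwa [Nat.mod_eq_of_lt ht.1, Nat.mod_eq_of_lt ht'.1] at h6
    have hex : ∀ l : ℕ, l.Prime → ¬ l ∣ s → (1 : ℝ) ≤ (#((range l).filter (P a l)) : ℝ) := by
      intro l hl hls
      have : Fact l.Prime := ⟨hl⟩
      have hs0 : (s : ZMod l) ≠ 0 := fun h => hls ((ZMod.natCast_eq_zero_iff s l).1 h)
      set x : ZMod l := (-a) * (s : ZMod l)⁻¹ with hx
      have h1 : 0 < #((range l).filter (P a l)) := by
        apply card_pos.2
        refine ⟨x.val, ?_⟩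
        rw [mem_filter, mem_range, hP]
        refine ⟨ZMod.val_lt x, hls, ?_⟩
        rw [← ZMod.natCast_eq_zero_iff]
        push_cast
        rw [ZMod.natCast_val, ZMod.cast_id', id, hx]
        field_simp
        ring
      exact_mod_cast h1
    have hS : (J * Real.log 2 - C1) - #s.primeFactors * Real.log 2 ≤
        ∑ l ∈ Pr 3 J, (#((range l).filter (P a l)) : ℝ) / l := by
      have e1 := (abs_le.1 (h1 J hJ)).1
      have e2 : ∑ l ∈ Pr 3 J, (rho (Polynomial.X : ℤ[X]) l : ℝ) / l -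
          ∑ l ∈ (Pr 3 J).filter (fun l => l ∣ s), (1 : ℝ) / l ≤
          ∑ l ∈ Pr 3 J, (#((range l).filter (P a l)) : ℝ) / l := by
        rw [Finset.sum_filter, ← Finset.sum_sub_distrib]
        apply Finset.sum_le_sum
        intro l hl
        have hlp : l.Prime := (mem_filter.1 hl).2.1
        rw [rho_X hlp.pos]
        split_ifs with hls
        · simp only [Nat.cast_one, sub_self]
          positivity
        · have := hex l hlp hls
          rw [sub_zero, Nat.cast_one]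
          gcongr
      have e3 : ∑ l ∈ (Pr 3 J).filter (fun l => l ∣ s), (1 : ℝ) / l ≤ #s.primeFactors * Real.log 2 := by
        calc ∑ l ∈ (Pr 3 J).filter (fun l => l ∣ s), (1 : ℝ) / l
            ≤ ∑ l ∈ (Pr 3 J).filter (fun l => l ∣ s), Real.log 2 := by
              apply Finset.sum_le_sum
              intro l hl
              rw [mem_filter] at hl
              have h3 : (7 : ℝ) ≤ l := by
                have := (mem_filter.1 hl.1).2.2
                exact_mod_cast (by omega : 7 ≤ l)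
              have h4 : (1 : ℝ) / l ≤ 1 / 7 := by gcongr
              linarith
          _ = (#((Pr 3 J).filter (fun l => l ∣ s)) : ℝ) * Real.log 2 := by
              rw [sum_const, nsmul_eq_mul]
          _ ≤ _ := by
              gcongr
              intro l hl
              rw [mem_filter] at hl
              rw [Nat.mem_primeFactors]
              exact ⟨(mem_filter.1 hl.1).2.1, hl.2, hs.ne'⟩
      linarith
    have hmain := hsv (P a) (X / s + 1) J _ hper (fun l hl => (huniq l hl).trans (by norm_num)) hS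
    have hexp : Real.exp (-((J * Real.log 2 - C1) - #s.primeFactors * Real.log 2)) ≤
        Real.exp C1 * τ * (K0 / Real.log Y) := by
      have e1 : -((J * Real.log 2 - C1) - #s.primeFactors * Real.log 2) =
          C1 + Real.log (2 ^ #s.primeFactors) + -Real.log (2 ^ J) := by
        rw [Real.log_pow, Real.log_pow]; ring
      rw [e1, Real.exp_add, Real.exp_add, Real.exp_neg, Real.exp_log (by positivity),
        Real.exp_log (by positivity), ← one_div]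
      gcongr
      rw [hτ]
      exact_mod_cast two_pow_omega_le s hs.ne'
    have h3 : ((X / s + 1 : ℕ) : ℝ) ≤ X / s + 1 := by
      push_cast
      gcongr
      exact Nat.cast_div_le
    calc (#(St a) : ℝ) ≤ _ := hmain
      _ ≤ 2 * (X / s + 1) * (Real.exp C1 * τ * (K0 / Real.log Y)) + Y := by gcongr
  calc (#A : ℝ) ≤ ((∑ a ∈ Rt, #(St a) : ℕ) : ℝ) := by
        norm_cast
        exact (card_le_card hsub).trans (card_biUnion_le.trans (sum_le_sum fun a _ => card_image_le))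
    _ = ∑ a ∈ Rt, (#(St a) : ℝ) := by push_cast; rfl
    _ ≤ ∑ a ∈ Rt, (2 * (X / s + 1) * (Real.exp C1 * τ * (K0 / Real.log Y)) + Y) := Finset.sum_le_sum hStc
    _ = #Rt * (2 * (X / s + 1) * (Real.exp C1 * τ * (K0 / Real.log Y)) + Y) := by
        rw [sum_const, nsmul_eq_mul]
    _ ≤ (4 * τ) * (2 * (X / s + 1) * (Real.exp C1 * τ * (K0 / Real.log Y)) + Y) := by
        gcongr
    _ = 8 * Real.exp C1 * K0 * X / Real.log Y * (τ ^ 2 / s) + 8 * Real.exp C1 * K0 / Real.log Y * τ ^ 2 +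
        4 * τ * Y := by
        field_simp; ring
    _ ≤ 8 * Real.exp C1 * K0 * X / Real.log Y * (τ ^ 2 / s) + 8 * Real.exp C1 * K0 / 1 * (s : ℝ) ^ 2 +
        4 * s * Y := by gcongr
    _ = _ := by ring

/-- primes in the exceptional set `E1` -/
theorem E1_prime {δ : ℝ} (hδ : 0 < δ) : ∃ (C : ℝ) (j0 Y0 : ℕ), 0 < C ∧ ∀ X Y w : ℕ, Y0 ≤ Y → 1 ≤ X → 1 ≤ w →
    ∀ A : Finset ℕ, (∀ n ∈ A, n ≤ X ∧ n.Prime ∧ Y < n ∧ E1 (j0 ^ 2) n) →
    (#A : ℝ) ≤ δ * X / Real.log Y + C * (X * (w : ℝ) ^ (-(1 / 2) : ℝ) + (X : ℝ) ^ (3 / 4 : ℝ)) +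
      (w + 2) * (C * ((w : ℝ) + 2) ^ 4 + 4 * ((w : ℝ) + 2) ^ 2 * Y) := by
  classical
  obtain ⟨C1, Y1, hC1, hcls⟩ := prime_cls
  obtain ⟨C2, hC2, hA2⟩ := A2_count
  obtain ⟨j0, hj0⟩ := series_tail (δ := δ / C1) (by positivity)
  refine ⟨C1 + C2, j0, Y1 + 3, by positivity, fun X Y w hY hX hw A hA => ?_⟩
  have hYr : (3 : ℝ) ≤ Y := by exact_mod_cast (by omega : 3 ≤ Y)
  have hlogY : 0 < Real.log Y := Real.log_pos (by linarith)
  have hsplit := Finset.card_filter_add_card_filter_not (s := A) (fun n => E1 (w ^ 2) n)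
  have b1 := hA2 X w hX hw (A.filter (fun n => E1 (w ^ 2) n)) (fun n hn => by
    rw [mem_filter] at hn
    have := hA n hn.1
    exact ⟨this.1, this.2.1.pos, hn.2⟩)
  have hsub : A.filter (fun n => ¬ E1 (w ^ 2) n) ⊆ (Ico j0 (w + 2)).biUnion (fun j =>
      A.filter (fun n => (j * (j - 1) + 1) ∣ n ^ 2 + n + 1)) := by
    intro n hn
    rw [mem_filter] at hn
    obtain ⟨hnA, hnE⟩ := hn
    obtain ⟨_, _, _, m, h1, h2, h3, h4⟩ := hA n hnA
    have h5 : m ^ 2 + m + 1 ≤ w ^ 2 := by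
      by_contra hcon
      exact hnE ⟨m, h1, not_le.1 hcon, h3, h4⟩
    have hmw : m < w := by
      by_contra hcon
      push Not at hcon
      have : w ^ 2 ≤ m ^ 2 := Nat.pow_le_pow_left hcon 2
      omega
    have hmj : j0 ≤ m + 1 := by
      by_contra hcon
      push Not at hcon
      have h6 : (m + 1) ^ 2 ≤ j0 ^ 2 := Nat.pow_le_pow_left hcon.le 2
      have h7 : (m + 1) ^ 2 = m ^ 2 + 2 * m + 1 := by ring
      omega
    rw [mem_biUnion]
    refine ⟨m + 1, mem_Ico.2 ⟨hmj, by omega⟩, mem_filter.2 ⟨hnA, ?_⟩⟩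
    have h8 : (m + 1) * (m + 1 - 1) + 1 = m ^ 2 + m + 1 := by
      rw [Nat.add_sub_cancel]; ring
    rw [h8]; exact h3
  have hone : ∀ j ∈ Ico j0 (w + 2), (#(A.filter (fun n => (j * (j - 1) + 1) ∣ n ^ 2 + n + 1)) : ℝ) ≤
      C1 * X / Real.log Y * ((((j * (j - 1) + 1).divisors.card : ℝ) ^ 2 / ((j * (j - 1) + 1 : ℕ) : ℝ))) +
        (C1 * ((w : ℝ) + 2) ^ 4 + 4 * ((w : ℝ) + 2) ^ 2 * Y) := by
    intro j hj
    rw [mem_Ico] at hj
    have h1 := hcls X Y (j * (j - 1) + 1) (by omega) (by omega)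
      (A.filter (fun n => (j * (j - 1) + 1) ∣ n ^ 2 + n + 1)) (fun n hn => by
        rw [mem_filter] at hn
        have := hA n hn.1
        exact ⟨this.1, this.2.1, this.2.2.1, hn.2⟩)
    have h2 : j * (j - 1) + 1 ≤ (w + 2) ^ 2 := by
      have h3 : j * (j - 1) ≤ (w + 1) * w := Nat.mul_le_mul (by omega) (by omega)
      nlinarith
    have h3 : ((j * (j - 1) + 1 : ℕ) : ℝ) ≤ ((w : ℝ) + 2) ^ 2 := by exact_mod_cast h2
    have h4 : ((j * (j - 1) + 1 : ℕ) : ℝ) ^ 2 ≤ ((w : ℝ) + 2) ^ 4 := by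
      calc ((j * (j - 1) + 1 : ℕ) : ℝ) ^ 2 ≤ (((w : ℝ) + 2) ^ 2) ^ 2 := by gcongr
        _ = _ := by ring
    have h5 : C1 * ((j * (j - 1) + 1 : ℕ) : ℝ) ^ 2 ≤ C1 * ((w : ℝ) + 2) ^ 4 := by gcongr
    have h6 : 4 * ((j * (j - 1) + 1 : ℕ) : ℝ) * Y ≤ 4 * ((w : ℝ) + 2) ^ 2 * Y := by gcongr
    linarith
  have b2 : (#(A.filter (fun n => ¬ E1 (w ^ 2) n)) : ℝ) ≤ δ * X / Real.log Y +
      (w + 2) * (C1 * ((w : ℝ) + 2) ^ 4 + 4 * ((w : ℝ) + 2) ^ 2 * Y) := by
    have hcI : (#(Ico j0 (w + 2)) : ℝ) ≤ w + 2 := by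
      have : #(Ico j0 (w + 2)) ≤ w + 2 := by rw [Nat.card_Ico]; omega
      exact_mod_cast this
    calc (#(A.filter (fun n => ¬ E1 (w ^ 2) n)) : ℝ)
        ≤ ((∑ j ∈ Ico j0 (w + 2), #(A.filter (fun n => (j * (j - 1) + 1) ∣ n ^ 2 + n + 1)) : ℕ) : ℝ) := by
          exact_mod_cast (card_le_card hsub).trans card_biUnion_le
      _ = ∑ j ∈ Ico j0 (w + 2), (#(A.filter (fun n => (j * (j - 1) + 1) ∣ n ^ 2 + n + 1)) : ℝ) := by
          push_cast; rfl
      _ ≤ ∑ j ∈ Ico j0 (w + 2), (C1 * X / Real.log Y * ((((j * (j - 1) + 1).divisors.card : ℝ) ^ 2 /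
          ((j * (j - 1) + 1 : ℕ) : ℝ))) + (C1 * ((w : ℝ) + 2) ^ 4 + 4 * ((w : ℝ) + 2) ^ 2 * Y)) :=
          Finset.sum_le_sum hone
      _ = C1 * X / Real.log Y * (∑ j ∈ Ico j0 (w + 2), (((j * (j - 1) + 1).divisors.card : ℝ) ^ 2 /
          ((j * (j - 1) + 1 : ℕ) : ℝ))) +
          #(Ico j0 (w + 2)) * (C1 * ((w : ℝ) + 2) ^ 4 + 4 * ((w : ℝ) + 2) ^ 2 * Y) := by
          rw [Finset.sum_add_distrib, ← Finset.mul_sum, sum_const, nsmul_eq_mul]
      _ ≤ C1 * X / Real.log Y * (δ / C1) +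
          (w + 2) * (C1 * ((w : ℝ) + 2) ^ 4 + 4 * ((w : ℝ) + 2) ^ 2 * Y) := by
          gcongr
          exact hj0 (w + 2)
      _ = _ := by field_simp
  have hsum : (#A : ℝ) = #(A.filter (fun n => E1 (w ^ 2) n)) + #(A.filter (fun n => ¬ E1 (w ^ 2) n)) := by
    exact_mod_cast hsplit.symm
  have hp1 : 0 ≤ (X : ℝ) * (w : ℝ) ^ (-(1 / 2) : ℝ) + (X : ℝ) ^ (3 / 4 : ℝ) := by positivity
  have b1' : (#(A.filter (fun n => E1 (w ^ 2) n)) : ℝ) ≤
      (C1 + C2) * (X * (w : ℝ) ^ (-(1 / 2) : ℝ) + (X : ℝ) ^ (3 / 4 : ℝ)) := by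
    refine b1.trans ?_
    apply mul_le_mul_of_nonneg_right _ hp1
    linarith
  have b2' : ((w : ℝ) + 2) * (C1 * ((w : ℝ) + 2) ^ 4 + 4 * ((w : ℝ) + 2) ^ 2 * Y) ≤
      (w + 2) * ((C1 + C2) * ((w : ℝ) + 2) ^ 4 + 4 * ((w : ℝ) + 2) ^ 2 * Y) := by
    gcongr
    linarith
  linarith

end Pool.Agent.TH506.PMU
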