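import Pool.Agent.TH506.APD.Rgh

/-!
Roots of cyclotomic polynomials modulo primes, and a sieve for primes `n` such that `n ^ 2 + n + 1` avoids a set
of primes.
-/

set_option autoImplicit false

namespace Pool.Agent.TH506.PMU

open Finset Polynomial Pool.Agent.TH506.APD
open Pool.Agent.H410R2.ED Pool.Agent.H474R2.PG

/-- the number of roots of the cyclotomic polynomial modulo a prime `l = 1` modulo `Q` -/
lemma rho_cyclotomic {Q l : ℕ} (hl : l.Prime) (hQ : 0 < Q) (hQl : Q ∣ l - 1) :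
    Nat.totient Q ≤ rho (cyclotomic Q ℤ) l := by
  classical
  have : Fact l.Prime := ⟨hl⟩
  have hcard : Q ∣ Fintype.card (ZMod l)ˣ := by rw [ZMod.card_units]; exact hQl
  have h1 : #((univ : Finset (ZMod l)ˣ).filter (fun g => orderOf g = Q)) = Nat.totient Q := by
    apply IsCyclic.card_orderOf_eq_totient
    exact hcard
  rw [← h1]
  unfold rho
  apply Finset.card_le_card_of_injOn (fun g => ((g : (ZMod l)ˣ) : ZMod l).val)
  · intro g hg
    rw [mem_coe, mem_filter] at hg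
    rw [mem_coe, mem_filter, mem_range]
    refine ⟨ZMod.val_lt _, ?_⟩
    have h2 : IsPrimitiveRoot ((g : (ZMod l)ˣ) : ZMod l) Q := by
      rw [← hg.2, IsPrimitiveRoot.coe_units_iff]
      exact IsPrimitiveRoot.orderOf g
    have h3 : (cyclotomic Q (ZMod l)).eval ((g : (ZMod l)ˣ) : ZMod l) = 0 := h2.isRoot_cyclotomic hQ
    rw [← map_cyclotomic_int Q (ZMod l)] at h3
    have h4 : (((g : (ZMod l)ˣ) : ZMod l)) = (Int.castRingHom (ZMod l)) ((((g : (ZMod l)ˣ) : ZMod l).val : ℕ) : ℤ) := by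
      simp
    rw [h4, eval_map, eval₂_at_apply] at h3
    exact (ZMod.intCast_zmod_eq_zero_iff_dvd _ _).1 h3
  · intro g _ g' _ h
    exact Units.ext (ZMod.val_injective l h)

open Classical in
/-- primes `n` (or only `Y`-rough numbers) such that `n ^ 2 + n + 1` has no prime factor in `W` -/
theorem sieve_W : ∃ (C c : ℝ) (Y0 : ℕ), 0 < C ∧ 0 < c ∧ ∀ Y : ℕ, Y0 ≤ Y → ∃ J : ℕ, 1 ≤ J ∧ 2 ^ 2 ^ J ≤ Y ∧
    1 / (2 : ℝ) ^ J ≤ c / Real.log Y ∧ ∀ (X : ℕ) (W : ℕ → Prop) (S : ℝ), 1 ≤ X →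
    S ≤ ∑ l ∈ (Pr 3 J).filter W, (rho FP l : ℝ) / l → ∀ A : Finset ℕ,
    (∀ n ∈ A, n ≤ X ∧ (∀ l : ℕ, l.Prime → l ∣ n → Y < l) ∧
      (∀ l : ℕ, l.Prime → W l → l ∣ n ^ 2 + n + 1 → Y < l)) →
    (#A : ℝ) ≤ C * X * (1 / 2 ^ J) * Real.exp (-S) + Y := by
  obtain ⟨c, hc, hsv⟩ := sieve_exp
  obtain ⟨C1, hC1, h1⟩ := mert (Polynomial.X : ℤ[X]) Polynomial.irreducible_X (by rw [natDegree_X]; norm_num)
  have hlog2 : 0 < Real.log 2 := Real.log_pos (by norm_num)
  have hc0 : (0 : ℝ) < c := by exact_mod_cast hc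
  refine ⟨4 * Real.exp C1, 8 * c * Real.log 2, 2 ^ (16 * c), by positivity, by positivity, fun Y hY0 => ?_⟩
  obtain ⟨J, hJ, hJ2, hJ3, hJ4⟩ := exists_level3 hc hY0
  refine ⟨J, hJ, hJ3, hJ4, fun X W S hX hS A hA => ?_⟩
  obtain ⟨P, hP⟩ : ∃ P : ℕ → ℕ → Prop, ∀ l n, P l n ↔ (l ∣ n ∨ (W l ∧ l ∣ n ^ 2 + n + 1)) :=
    ⟨_, fun _ _ => Iff.rfl⟩
  have hper : ∀ l n, P l (n + l) ↔ P l n := by
    intro l n
    rw [hP, hP]
    have h3 : n + l ≡ n [MOD l] := by simp
    rw [dvd_val_congr h3, Nat.dvd_add_self_right]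
  have hcard : ∀ l : ℕ, l.Prime → #((range l).filter (P l)) =
      rho (Polynomial.X : ℤ[X]) l + (if W l then rho FP l else 0) := by
    intro l hl
    have h3 : (range l).filter (P l) = (range l).filter (fun n => l ∣ n) ∪
        (range l).filter (fun n => W l ∧ l ∣ n ^ 2 + n + 1) := by
      rw [← Finset.filter_or]
      apply Finset.filter_congr
      intro n _
      rw [hP]
    rw [h3, card_union_of_disjoint]
    · congr 1
      · unfold rho
        congr 1
        apply Finset.filter_congr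
        intro a _
        rw [eval_X, Int.natCast_dvd_natCast]
      · split_ifs with h4
        · rw [rho_FP]
          congr 1
          apply Finset.filter_congr
          intro a _
          simp [h4]
        · rw [card_eq_zero, Finset.filter_eq_empty_iff]
          intro a _ h5
          exact h4 h5.1
    · rw [Finset.disjoint_filter]
      intro a _ h4 h5
      have h6 : l ∣ a ^ 2 + a := dvd_add (dvd_pow h4 (by norm_num)) h4
      have h7 := (Nat.dvd_add_right h6).1 h5.2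
      exact hl.one_lt.ne' (Nat.dvd_one.1 h7)
  have hcard3 : ∀ l : ℕ, l.Prime → #((range l).filter (P l)) ≤ 3 := by
    intro l hl
    rw [hcard l hl, rho_X hl.pos]
    have := rho_FP_le hl
    split_ifs <;> omega
  have hS' : (J * Real.log 2 - C1) + S ≤ ∑ l ∈ Pr 3 J, (#((range l).filter (P l)) : ℝ) / l := by
    have e1 := (abs_le.1 (h1 J hJ)).1
    have e4 : ∑ l ∈ Pr 3 J, (#((range l).filter (P l)) : ℝ) / l =
        ∑ l ∈ Pr 3 J, (rho (Polynomial.X : ℤ[X]) l : ℝ) / l +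
        ∑ l ∈ (Pr 3 J).filter W, (rho FP l : ℝ) / l := by
      rw [Finset.sum_filter, ← Finset.sum_add_distrib]
      apply Finset.sum_congr rfl
      intro l hl
      rw [hcard l (mem_filter.1 hl).2.1]
      split_ifs <;> push_cast <;> ring
    rw [e4]
    linarith
  have hmain := hsv P (X + 1) J _ hper hcard3 hS'
  have hsub : A ⊆ (range (X + 1)).filter (fun t => ∀ l ∈ Pr 3 J, ¬ P l t) := by
    intro n hn
    obtain ⟨h3, h4, h5⟩ := hA n hn
    rw [mem_filter, mem_range]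
    refine ⟨by omega, ?_⟩
    intro l hl hPl
    have hlp : l.Prime := (mem_filter.1 hl).2.1
    have hlt : l < 2 ^ 2 ^ J := mem_range.1 (mem_filter.1 hl).1
    rcases (hP l n).1 hPl with h6 | ⟨h6, h7⟩
    · have := h4 l hlp h6; omega
    · have := h5 l hlp h6 h7; omega
  have hexp : Real.exp (-((J * Real.log 2 - C1) + S)) = Real.exp C1 * (1 / 2 ^ J) * Real.exp (-S) := by
    have e1 : -((J * Real.log 2 - C1) + S) = C1 + -Real.log (2 ^ J) + -S := by
      rw [Real.log_pow]; ring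
    rw [e1, Real.exp_add, Real.exp_add, Real.exp_neg (Real.log _), Real.exp_log (by positivity), one_div]
  calc (#A : ℝ) ≤ _ := by exact_mod_cast card_le_card hsub
    _ ≤ _ := hmain
    _ ≤ 2 * ((X + 1 : ℕ) : ℝ) * (Real.exp C1 * (1 / 2 ^ J) * Real.exp (-S)) + Y := by
        rw [hexp]
        gcongr
    _ ≤ 2 * (2 * (X : ℝ)) * (Real.exp C1 * (1 / 2 ^ J) * Real.exp (-S)) + Y := by
        have : ((X + 1 : ℕ) : ℝ) ≤ 2 * X := by
          have : (1 : ℝ) ≤ X := by exact_mod_cast hX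
          push_cast; linarith
        gcongr
    _ = _ := by ring

end Pool.Agent.TH506.PMU
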